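import Pool.Agent.H.MP_7ac2f5_co.B

set_option autoImplicit false

namespace Pool.Agent.Results.MP_7ac2f5_co.Answer

open Filter Topology ENNReal Pool.Agent.H.MP_7ac2f5_co

def Rigid {n d : ℕ} (q : ℝ≥0∞) [Fact (1 ≤ q)] (G : SimpleGraph (Fin n))
    (p : Fin n → PiLp q (fun _ : Fin d => ℝ)) : Prop :=
  (∀ u v, G.Adj u v →
    DifferentiableAt ℝ (fun x : PiLp q (fun _ : Fin d => ℝ) => ‖x‖) (p u - p v)) ∧
  ∀ m : Fin n → PiLp q (fun _ : Fin d => ℝ),
    (∀ u v, G.Adj u v →
      fderiv ℝ (fun x : PiLp q (fun _ : Fin d => ℝ) => ‖x‖) (p u - p v) (m u - m v) = 0) →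
    ∀ u v, m u = m v

def RedRigid {n d : ℕ} (q : ℝ≥0∞) [Fact (1 ≤ q)] (G : SimpleGraph (Fin n))
    (p : Fin n → PiLp q (fun _ : Fin d => ℝ)) : Prop :=
  Rigid q G p ∧ ∀ e ∈ G.edgeSet, Rigid q (G.deleteEdges {e}) p

def HamUnion {n : ℕ} (d : ℕ) (G : SimpleGraph (Fin n)) : Prop :=
  ∃ (v : Fin d → Fin n) (c : ∀ k, G.Walk (v k) (v k)),
    (∀ k, (c k).IsHamiltonianCycle) ∧ ∀ e ∈ G.edgeSet, ∃! k, e ∈ (c k).edges

lemma k5 : HamUnion 2 (⊤ : SimpleGraph (Fin 5)) := by
  let c0 : (⊤ : SimpleGraph (Fin 5)).Walk 0 0 :=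
    .cons (v := 1) (by decide) (.cons (v := 2) (by decide) (.cons (v := 3) (by decide)
      (.cons (v := 4) (by decide) (.cons (by decide) .nil))))
  let c1 : (⊤ : SimpleGraph (Fin 5)).Walk 0 0 :=
    .cons (v := 2) (by decide) (.cons (v := 4) (by decide) (.cons (v := 1) (by decide)
      (.cons (v := 3) (by decide) (.cons (by decide) .nil))))
  refine ⟨fun _ => 0, fun k => if k = 0 then c0 else c1, ?_, ?_⟩
  · intro k
    rw [SimpleGraph.Walk.isHamiltonianCycle_iff_isCycle_and_length_eq,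
      SimpleGraph.Walk.isCycle_def, SimpleGraph.Walk.isTrail_def]
    fin_cases k
    · exact ⟨⟨by decide, by simp [c0], by decide⟩, by decide⟩
    · exact ⟨⟨by decide, by simp [c1], by decide⟩, by decide⟩
  · intro e
    induction e using Sym2.ind with
    | _ a b =>
      unfold ExistsUnique
      revert a b
      decide

lemma no_k5 (p : Fin 5 → PiLp ∞ (fun _ : Fin 2 => ℝ)) :
    ¬ RedRigid ∞ (⊤ : SimpleGraph (Fin 5)) p := by
  rintro ⟨⟨hd, -⟩, hr⟩
  have key : ∀ k k' : Fin 2, k ≠ k' → ∀ v,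
      2 ≤ (Finset.univ.filter (fun u => |(p u - p v) k'| < |(p u - p v) k|)).card := by
    intro k k' hk v
    by_contra hc
    obtain ⟨u0, hu0, hu⟩ : ∃ u0, u0 ≠ v ∧
        ∀ u, |(p u - p v) k'| < |(p u - p v) k| → u = u0 := by
      by_cases h : ∃ u, |(p u - p v) k'| < |(p u - p v) k|
      · obtain ⟨u0, h0⟩ := h
        refine ⟨u0, ?_, fun u hu => ?_⟩
        · rintro rfl
          simp at h0
        · exact Finset.card_le_one.1 (Nat.le_of_lt_succ (not_le.1 hc)) u
            (Finset.mem_filter.2 ⟨Finset.mem_univ _, hu⟩) u0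
            (Finset.mem_filter.2 ⟨Finset.mem_univ _, h0⟩)
      · obtain ⟨u0, h0⟩ := exists_ne v
        exact ⟨u0, h0, fun u hu => absurd ⟨u, hu⟩ h⟩
    have hne : ∀ u, u ≠ v → u ≠ u0 → |(p u - p v) k| < |(p u - p v) k'| := by
      intro u h1 h2
      have h3 := inf_ne _ (hd u v h1)
      have h4 : ¬ _ := fun h => h2 (hu u h)
      refine lt_of_le_of_ne (not_lt.1 h4) ?_
      fin_cases k <;> fin_cases k'
      · exact absurd rfl hk
      · exact h3
      · exact h3.symm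
      · exact absurd rfl hk
    have := (hr s(u0, v) (by simpa using hu0)).2
      (fun w => if w = v then PiLp.single ∞ k 1 else 0) (by
        intro a b hab
        rw [SimpleGraph.deleteEdges_adj] at hab
        obtain ⟨h1, h2⟩ := hab
        have h1' : a ≠ b := h1
        by_cases ha : a = v
        · subst ha
          refine inf_deriv _ k' k ?_ _ ?_
          · have := hne b h1'.symm (by rintro rfl; simp at h2)
            simp only [PiLp.sub_apply] at this ⊢
            rwa [abs_sub_comm, abs_sub_comm (p a k')]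
          · simp [h1'.symm, hk.symm]
        · by_cases hb : b = v
          · subst hb
            refine inf_deriv _ k' k (hne a h1' (by rintro rfl; simp at h2)) _ ?_
            simp [h1', hk.symm]
          · simp [ha, hb]) v u0
    have h5 := congrArg (fun x : PiLp ∞ (fun _ : Fin 2 => ℝ) => x k) this
    simp [hu0] at h5
  refine five (fun u => p u 0 + p u 1) (fun u => p u 0 - p u 1) (fun v => ?_) (fun v => ?_)
  · refine (key 0 1 (by decide) v).trans (Finset.card_le_card ?_)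
    refine Finset.monotone_filter_right _ fun u _ h => ?_
    have := sq_lt_sq.2 h
    simp only [PiLp.sub_apply] at this
    nlinarith
  · refine (key 1 0 (by decide) v).trans (Finset.card_le_card ?_)
    refine Finset.monotone_filter_right _ fun u _ h => ?_
    have := sq_lt_sq.2 h
    simp only [PiLp.sub_apply] at this
    nlinarith

lemma flex {n d : ℕ} (hd : 0 < d) (G : SimpleGraph (Fin n)) (hG : HamUnion d G)
    (z : Fin n × Fin d → ℝ) (hz1 : ∀ (i : Pr n) k, z (i.1.1, k) - z (i.1.2, k) ≠ 0)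
    (hz2 : ∀ (J : Finset (Pr n)) (κ κ' : Pr n → Fin d),
      ∏ i ∈ J, |z (i.1.1, κ i) - z (i.1.2, κ i)| = ∏ i ∈ J, |z (i.1.1, κ' i) - z (i.1.2, κ' i)| →
        ∀ i ∈ J, κ i = κ' i) (e : Sym2 (Fin n)) :
    ∀ᶠ t : ℝ in atTop, ∀ m : Fin n → Fin d → ℝ,
      (∀ a b, G.Adj a b → s(a, b) ≠ e →
        ∑ k, (z (a, k) - z (b, k)) * |z (a, k) - z (b, k)| ^ t * (m a k - m b k) = 0) →
      ∀ u v, m u = m v := by
  classical
  obtain ⟨v, c, hc, hu⟩ := hG
  let v0 := v ⟨0, hd⟩
  let W : Submodule ℝ (Fin n → Fin d → ℝ) := LinearMap.ker (LinearMap.proj v0)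
  let ev : Fin n → Fin d → Module.Dual ℝ W := fun a k =>
    (LinearMap.proj k : (Fin d → ℝ) →ₗ[ℝ] ℝ) ∘ₗ (LinearMap.proj a) ∘ₗ W.subtype
  let r : Pr n → Fin d → Module.Dual ℝ W := fun i k =>
    if G.Adj i.1.1 i.1.2 ∧ s(i.1.1, i.1.2) ≠ e then ev i.1.1 k - ev i.1.2 k else 0
  let κ0 : Pr n → Fin d := fun i =>
    if h : ∃ k, s(i.1.1, i.1.2) ∈ (c k).edges then h.choose else ⟨0, hd⟩
  have h0 : Submodule.span ℝ (Set.range fun i => r i (κ0 i)) = ⊤ := by
    apply Submodule.span_eq_top_of_ne_zero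
    intro m hm
    by_contra hcon
    push Not at hcon
    apply hm
    have lt : ∀ k a b, a < b → s(a, b) ∈ (c k).edges → s(a, b) ≠ e → m.1 a k = m.1 b k := by
      intro k a b hab h1 h2
      have hadj : s(a, b) ∈ G.edgeSet := (c k).edges_subset_edgeSet h1
      have hex : ∃ k, s(a, b) ∈ (c k).edges := ⟨k, h1⟩
      have hk : κ0 ⟨(a, b), hab⟩ = k := by
        simp only [κ0, dif_pos hex]
        exact (hu _ hadj).unique hex.choose_spec h1
      have := hcon _ ⟨⟨(a, b), hab⟩, rfl⟩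
      simp only [hk, r] at this
      rw [if_pos ⟨hadj, h2⟩] at this
      exact sub_eq_zero.1 this
    ext a k
    have := cyc (c k) (hc k) e (fun a => m.1 a k) (by
      intro a b h1 h2
      rcases lt_trichotomy a b with h | h | h
      · exact lt k a b h h1 h2
      · rw [h]
      · exact (lt k b a h (by rwa [Sym2.eq_swap]) (by rwa [Sym2.eq_swap])).symm) a v0
    have h2 : m.1 v0 = 0 := m.2
    simp only [h2] at this
    simpa using this
  filter_upwards [span_ev r κ0 h0 (fun i k => z (i.1.1, k) - z (i.1.2, k))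
    (fun i k => |z (i.1.1, k) - z (i.1.2, k)|) hz1 (fun i k => abs_pos.2 (hz1 i k)) hz2]
    with t ht m hm
  let m' : W := ⟨fun a => m a - m v0, by simp [W]⟩
  have : m' = 0 := by
    rw [← Module.forall_dual_apply_eq_zero_iff ℝ]
    intro φ
    have hφ : φ ∈ Submodule.span ℝ _ := ht ▸ Submodule.mem_top
    induction hφ using Submodule.span_induction with
    | mem x hx =>
      obtain ⟨i, rfl⟩ := hx
      simp only [r]
      split_ifs with h
      · rw [← hm _ _ h.1 h.2]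
        simp [ev, m']
      · simp
    | zero => rfl
    | add x y _ _ hx hy => simp [hx, hy]
    | smul a x _ hx => simp [hx]
  have h3 : ∀ a, m a = m v0 := fun a => sub_eq_zero.1 (congrFun (congrArg Subtype.val this) a)
  intro a b
  rw [h3 a, h3 b]

theorem result :
    (HamUnion 2 (⊤ : SimpleGraph (Fin 5)) ∧
      ∀ p : Fin 5 → PiLp ∞ (fun _ : Fin 2 => ℝ), ¬ RedRigid ∞ (⊤ : SimpleGraph (Fin 5)) p) ∧
    (∀ (n d : ℕ) (G : SimpleGraph (Fin n)), 2 ≤ d → HamUnion d G →
      ∃ q0 : ℝ, ∀ (q : ℝ≥0∞) [Fact (1 ≤ q)], q ≠ ∞ → q0 ≤ q.toReal →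
        ∃ p : Fin n → PiLp q (fun _ : Fin d => ℝ), RedRigid q G p) := by
  refine ⟨⟨k5, no_k5⟩, fun n d G hd hG => ?_⟩
  have hd0 : 0 < d := by omega
  obtain ⟨z, hz1, hz2⟩ := placement n d
  obtain ⟨t0, ht0⟩ := eventually_atTop.1
    (eventually_all.2 fun e => flex hd0 G hG z hz1 hz2 e)
  refine ⟨max 2 (t0 + 2), fun q _ _ hq => ?_⟩
  have hq1 : 1 < q.toReal := lt_of_lt_of_le (by norm_num) ((le_max_left _ _).trans hq)
  have hq2 : t0 ≤ q.toReal - 2 := by linarith [(le_max_right _ _).trans hq]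
  have hne : ∀ a b : Fin n, a ≠ b → ∀ k, z (a, k) - z (b, k) ≠ 0 := by
    intro a b hab k
    rcases lt_or_gt_of_ne hab with h | h
    · exact hz1 ⟨(a, b), h⟩ k
    · exact sub_ne_zero.2 (sub_ne_zero.1 (hz1 ⟨(b, a), h⟩ k)).symm
  have key : ∀ (H : SimpleGraph (Fin n)) (e : Sym2 (Fin n)),
      (∀ a b, G.Adj a b → s(a, b) ≠ e → H.Adj a b) →
      Rigid q H (fun a => WithLp.toLp q (fun k : Fin d => z (a, k))) := by
    intro H e hH
    refine ⟨fun a b hab => (norm_deriv hd0 q hq1 _ (fun k => hne a b hab.ne k)).1, ?_⟩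
    intro m hm a b
    have := ht0 _ hq2 e (fun a k => m a k) (fun a b h1 h2 =>
      (norm_deriv hd0 q hq1 _ (fun k => hne a b h1.ne k)).2 _ (hm a b (hH a b h1 h2))) a b
    ext k
    exact congrFun this k
  obtain ⟨v, -⟩ := hG
  refine ⟨_, key G s(v ⟨0, hd0⟩, v ⟨0, hd0⟩) (fun a b h _ => h), fun e _ => key _ e ?_⟩
  intro a b h1 h2
  rw [SimpleGraph.deleteEdges_adj]
  exact ⟨h1, h2⟩

end Pool.Agent.Results.MP_7ac2f5_co.Answer
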